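import Mathlib
import Pool.Agent.helper58.DC.Spec2

/-! # Project dq, module TP: top coefficient of a product -/

set_option autoImplicit false

namespace Pool.Agent.helper59.DC

open Pool.Agent.helper58.DC

theorem TP_sum {Y : Type} [Fintype Y] (P : Y → Prop) [DecidablePred P] (s : Y → ℤ) :
    ∑ᶠ y : {y : Y // P y}, s y.1 = ∑ y ∈ Finset.univ.filter P, s y := by
  classical
  rw [finsum_eq_sum_of_fintype]
  exact (Finset.sum_subtype (Finset.univ.filter P) (by simp) s).symm

theorem TP : TP_stmt := by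
  classical
  intro Y T _ _ s δ m D hm hD
  have : Fintype Y := Fintype.ofFinite Y
  set F : ℤ → ℤ := fun d => ∑ y ∈ Finset.univ.filter (fun y => δ y = d), s y with hF
  have hF0 : ∀ d > D, F d = 0 := by
    intro d hd
    rw [← hD d hd, hF, TP_sum]
  rw [TP_sum (fun y : T → Y => ∑ t, (m t : ℤ) * δ (y t) = (∑ t, (m t : ℤ)) * D)
    (fun y => ∏ t, s (y t)), TP_sum (fun y => δ y = D) s]
  set A : Finset (T → Y) :=
    Finset.univ.filter (fun y : T → Y => ∑ t, (m t : ℤ) * δ (y t) = (∑ t, (m t : ℤ)) * D) with hA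
  set E : Finset (T → ℤ) := A.image (fun y t => δ (y t)) with hE
  have h1 : ∑ y ∈ A, ∏ t, s (y t) = ∑ e ∈ E, ∏ t, F (e t) := by
    rw [← Finset.sum_fiberwise_of_maps_to (g := fun (y : T → Y) (t : T) => δ (y t)) (t := E)
      (fun y hy => Finset.mem_image_of_mem _ hy)]
    refine Finset.sum_congr rfl fun e he => ?_
    rw [hF]
    show _ = ∏ t, ∑ y ∈ Finset.univ.filter (fun y => δ y = e t), s y
    rw [Finset.prod_univ_sum]
    refine Finset.sum_congr ?_ fun _ _ => rfl
    ext y
    rw [Finset.mem_filter, Fintype.mem_piFinset]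
    constructor
    · rintro ⟨-, h⟩ t
      rw [Finset.mem_filter]
      exact ⟨Finset.mem_univ _, congrFun h t⟩
    · intro h
      have h' : (fun t => δ (y t)) = e := funext fun t => (Finset.mem_filter.1 (h t)).2
      refine ⟨?_, h'⟩
      obtain ⟨y0, hy0, h0⟩ := Finset.mem_image.1 he
      rw [hA, Finset.mem_filter] at hy0 ⊢
      refine ⟨Finset.mem_univ _, ?_⟩
      rw [← hy0.2]
      refine Finset.sum_congr rfl fun t _ => ?_
      have h2 : δ (y t) = δ (y0 t) := by
        have h3 : δ (y t) = e t := congrFun h' t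
        have h4 : δ (y0 t) = e t := congrFun h0 t
        rw [h3, h4]
      rw [h2]
  rw [h1, Finset.sum_eq_single (fun _ : T => D)]
  · rw [Finset.prod_const, Finset.card_univ]
  · intro e he hne
    obtain ⟨y0, hy0, h0⟩ := Finset.mem_image.1 he
    rw [hA, Finset.mem_filter] at hy0
    have hs : ∑ t, (m t : ℤ) * e t = (∑ t, (m t : ℤ)) * D := by
      rw [← hy0.2]
      exact Finset.sum_congr rfl fun t _ => by rw [← h0]
    by_cases hex : ∃ t, D < e t
    · obtain ⟨t, ht⟩ := hex
      exact Finset.prod_eq_zero (Finset.mem_univ t) (hF0 _ ht)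
    · exfalso
      push Not at hex
      obtain ⟨t, ht⟩ := Function.ne_iff.1 hne
      have hlt : e t < D := lt_of_le_of_ne (hex t) ht
      have : ∑ t, (m t : ℤ) * e t < ∑ t, (m t : ℤ) * D := by
        refine Finset.sum_lt_sum (fun i _ => ?_) ⟨t, Finset.mem_univ _, ?_⟩
        · exact mul_le_mul_of_nonneg_left (hex i) (by positivity)
        · exact mul_lt_mul_of_pos_left hlt (by exact_mod_cast hm t)
      rw [← Finset.sum_mul] at this
      exact absurd hs (ne_of_lt this)
  · intro hn
    by_contra hc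
    apply hn
    have h2 : ∀ t : T, ∃ y : Y, δ y = D := by
      intro t
      have h3 := (Finset.prod_ne_zero_iff.1 hc) t (Finset.mem_univ t)
      obtain ⟨y, hy, -⟩ := Finset.exists_ne_zero_of_sum_ne_zero h3
      exact ⟨y, (Finset.mem_filter.1 hy).2⟩
    choose y hy using h2
    refine Finset.mem_image.2 ⟨y, ?_, funext hy⟩
    rw [hA, Finset.mem_filter]
    refine ⟨Finset.mem_univ _, ?_⟩
    rw [Finset.sum_mul]
    exact Finset.sum_congr rfl fun t _ => by rw [hy]

end Pool.Agent.helper59.DC
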